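import Pool.Agent.helper64.PB.SpecC

/-!
# Row `pb:ESE` (MP_069684_lc)

Self-dual bases: linear simulation, from the idempotent case.
-/

set_option autoImplicit false

namespace Pool.Agent.PB

theorem ESE_mono {G : Set Gate} {n : ℕ} {f : BF n} {a b : ℕ} (h : Size G f a) (hab : a ≤ b) :
    Size G f b := by
  obtain ⟨l, h1, h2, h3⟩ := h
  exact ⟨l, h1, h2.trans hab, h3⟩

theorem ESE_not {n : ℕ} {f : BF n} {s : ℕ} (h : Size std f s) :
    Size std (fun x => !(f x)) (s + 1) := by
  obtain ⟨l, h1, h2, h3⟩ := h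
  refine ⟨(fun x => gNot.2 fun _ => f x) :: l,
    Prog.step l gNot (fun _ => f) h1 (by simp [std]) (fun _ => h3), ?_, Or.inl ?_⟩
  · simpa using h2
  · exact List.mem_cons_self

theorem ESE (hESD : ESD_stmt) (hPRP : PRP_stmt) (hCLP : CLP_stmt) (hCMP : CMP_stmt) :
    ESE_stmt := by
  intro G hG hD
  obtain ⟨c0, hc0⟩ := hESD G hD
  have hex : ∃ sN : ℕ, InCl G fNot → Size G fNot sN := by
    by_cases h : InCl G fNot
    · obtain ⟨s, hs⟩ := h
      exact ⟨s, fun _ => hs⟩
    · exact ⟨0, fun h' => absurd h' h⟩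
  obtain ⟨sN, hsN⟩ := hex
  refine ⟨2 * c0 + sN, ?_⟩
  intro n hn f hf s hs
  have hsd : SelfDual f := (hPRP G n f hf).2.2.2.2.1 hG
  cases h0 : f (fun _ => false) with
  | false =>
    refine ESE_mono (hc0 n hn f hsd h0 s hs) ?_
    nlinarith [Nat.zero_le ((c0 + sN) * (s + n))]
  | true =>
    have h1 : f (fun _ => true) = false := by
      have := hsd (fun _ => false)
      simpa [h0] using this
    have hNot : InCl G fNot := by
      have h2 := hCLP.2 G n 1 f (fun _ => fun x : Fin 1 → Bool => x 0) hf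
        (fun _ => hCLP.1 G 1 0)
      have h3 : (fun x : Fin 1 → Bool => f fun _ : Fin n => x 0) = fNot := by
        funext x
        show f (fun _ => x 0) = !(x 0)
        cases hx : x 0
        · rw [h0]; rfl
        · rw [h1]; rfl
      rw [← h3]
      exact h2
    have hh : SelfDual (fun x => !(f x)) := by
      intro x
      show (!(f fun i => !(x i))) = !(!(f x))
      rw [hsd x]
    have hh0 : (fun x : Fin n → Bool => !(f x)) (fun _ => false) = false := by
      show (!(f fun _ => false)) = false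
      rw [h0]; rfl
    have h4 := hc0 n hn (fun x => !(f x)) hh hh0 (s + 1) (ESE_not hs)
    have h5 := hCMP G 1 n fNot (fun _ => fun x => !(f x)) sN (fun _ => c0 * (s + 1 + n))
      (hsN hNot) (fun _ => h4)
    have h6 : (fun x : Fin n → Bool => fNot fun _ : Fin 1 => !(f x)) = f := by
      funext x
      show (!(!(f x))) = f x
      exact Bool.not_not _
    rw [h6] at h5
    refine ESE_mono h5 ?_
    have h7 : ∑ i : Fin 1, c0 * (s + 1 + n) = c0 * (s + 1 + n) := by simp
    rw [h7]
    have h8 : 1 ≤ s + n := by omega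
    nlinarith [Nat.mul_le_mul_left c0 h8, Nat.mul_le_mul_left sN h8]

end Pool.Agent.PB
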