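import Pool.Agent.helper64.PB.SpecW

/-!
# Row `pb:RST` (MP_069684_lc)

Restriction: variables are replaced by variables or constants.
-/

set_option autoImplicit false

namespace Pool.Agent.PB

theorem RST_aux (hSUB : SUB_stmt) (G : Set Gate) (hf : gConst false ∈ G) (ht : gConst true ∈ G)
    (m n : ℕ) (u : BF m) (s : ℕ) (φ : Fin m → BF n)
    (hφ : ∀ i, (∃ j, φ i = fun x => x j) ∨ ∃ v, φ i = fC v n) (hu : Size G u s) :
    Size G (fun x => u fun i => φ i x) (s + 2) := by
  have h0 : Prog G n [fC true n, fC false n] :=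
    Prog.step [fC false n] (gConst true) (fun i => Fin.elim0 i)
      (Prog.step [] (gConst false) (fun i => Fin.elim0 i) Prog.nil hf (fun i => Fin.elim0 i))
      ht (fun i => Fin.elim0 i)
  have h1 : ∀ i, Av [fC true n, fC false n] (φ i) := by
    intro i
    rcases hφ i with h | ⟨v, hv⟩
    · exact Or.inr h
    · refine Or.inl ?_
      rw [hv]
      cases v <;> simp
  obtain ⟨l', h2, h3, h4⟩ := hSUB G m n u s _ φ hu h0 h1
  refine ⟨l' ++ [fC true n, fC false n], h2, ?_, h4⟩
  rw [List.length_append]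
  simpa using h3

theorem RST (hSUB : SUB_stmt) : RST_stmt := by
  intro m n u s φ hφ
  exact ⟨RST_aux hSUB mon (by simp [mon]) (by simp [mon]) m n u s φ hφ,
    RST_aux hSUB std (by simp [std]) (by simp [std]) m n u s φ hφ⟩

end Pool.Agent.PB
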